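import Pool.Agent.U866.OM.Stm

/-! Project OM, package PT: scaling of the scalar curvature density, pointwise. -/

set_option autoImplicit false

namespace Pool.Agent.U884.OM

open Pool.Agent.H498R3.GB Pool.Agent.U866.OM
open scoped BigOperators ContDiff Topology Matrix

noncomputable section

theorem pd_cmul {n : ℕ} (a : ℝ) (f : E n → ℝ) (i : Fin n) (x : E n) :
    pd i (fun z => a * f z) x = a * pd i f x := by
  unfold pd
  have h : (fun z => a * f z) = a • f := rfl
  rw [h, fderiv_const_smul_field]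
  rfl

theorem pd_scale {n : ℕ} (c : ℝ) (f : E n → ℝ) (i : Fin n) (x : E n) :
    pd i (fun z => f (c • z)) x = c * pd i f (c • x) := by
  unfold pd
  rw [fderiv_comp_smul]
  rfl

variable {n : ℕ}

theorem pd_pd_scale (c : ℝ) (f : E n → ℝ) (i j : Fin n) (x : E n) :
    pd i (pd j (fun z => f (c • z))) x = c ^ 2 * pd i (pd j f) (c • x) := by
  have h : pd j (fun z => f (c • z)) = fun y => c * (pd j f) (c • y) := by
    funext y
    exact pd_scale c f j y
  rw [h, pd_cmul, pd_scale]
  ring

theorem Gam_scale (h : MetricField n) (c : ℝ) (x : E n) (m i j : Fin n) :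
    Gam (fun y => h (c • y)) x m i j = c * Gam h (c • x) m i j := by
  unfold Gam
  rw [pd_scale c (fun z => h z m j), pd_scale c (fun z => h z m i), pd_scale c (fun z => h z i j)]
  ring

theorem Rm_scale (h : MetricField n) (c : ℝ) (x : E n) (i j k l : Fin n) :
    Rm (fun y => h (c • y)) x i j k l = c ^ 2 * Rm h (c • x) i j k l := by
  unfold Rm
  rw [pd_pd_scale c (fun z => h z i l), pd_pd_scale c (fun z => h z j k),
    pd_pd_scale c (fun z => h z j l), pd_pd_scale c (fun z => h z i k)]
  simp only [Gam_scale]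
  rw [mul_add, Finset.mul_sum]
  congr 1
  · ring
  · refine Finset.sum_congr rfl fun p _ => ?_
    rw [Finset.mul_sum]
    refine Finset.sum_congr rfl fun q _ => ?_
    have e : ginv (fun y => h (c • y)) x p q = ginv h (c • x) p q := rfl
    rw [e]
    ring

theorem Ric_scale (h : MetricField n) (c : ℝ) (x : E n) (j l : Fin n) :
    Ric (fun y => h (c • y)) x j l = c ^ 2 * Ric h (c • x) j l := by
  unfold Ric
  simp only [Rm_scale]
  rw [Finset.mul_sum]
  refine Finset.sum_congr rfl fun p _ => ?_
  rw [Finset.mul_sum]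
  refine Finset.sum_congr rfl fun q _ => ?_
  have e : ginv (fun y => h (c • y)) x p q = ginv h (c • x) p q := rfl
  rw [e]
  ring

theorem Scal_scale (h : MetricField n) (c : ℝ) (x : E n) :
    Scal (fun y => h (c • y)) x = c ^ 2 * Scal h (c • x) := by
  unfold Scal
  simp only [Ric_scale]
  rw [Finset.mul_sum]
  refine Finset.sum_congr rfl fun p _ => ?_
  rw [Finset.mul_sum]
  refine Finset.sum_congr rfl fun q _ => ?_
  have e : ginv (fun y => h (c • y)) x p q = ginv h (c • x) p q := rfl
  rw [e]
  ring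

theorem vol_scale (h : MetricField n) (c : ℝ) (x : E n) :
    volDensity (fun y => h (c • y)) x = volDensity h (c • x) := rfl

theorem gpt_scale {m : ℕ} (v : E m → ℝ) (ε : ℝ) (hε : 0 < ε) (x : E m) :
    gpt (fun z => ε * v (ε⁻¹ • z)) x = ε • gpt v (ε⁻¹ • x) := by
  unfold gpt cpt
  ext a
  refine Fin.cases ?_ (fun j => ?_) a
  · rfl
  · change x j = ε * (ε⁻¹ * x j)
    rw [← mul_assoc, mul_inv_cancel₀ hε.ne', one_mul]

theorem graph_scale {m : ℕ} (G : MetricField (m + 1)) (v : E m → ℝ) (ε : ℝ) (hε : 0 < ε) :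
    graphMetric G (fun z => ε * v (ε⁻¹ • z)) = fun x => fam G v ε (ε⁻¹ • x) := by
  funext x
  unfold graphMetric fam
  ext i j
  simp only [Matrix.of_apply]
  refine Finset.sum_congr rfl fun a _ => ?_
  refine Finset.sum_congr rfl fun b _ => ?_
  have key : ∀ (a : Fin (m + 1)) (i : Fin m),
      pd i (fun z => gpt (fun z => ε * v (ε⁻¹ • z)) z a) x = pd i (fun z => gpt v z a) (ε⁻¹ • x) := by
    intro a i
    have e : (fun z => gpt (fun z => ε * v (ε⁻¹ • z)) z a)
        = fun z => ε * (fun w => gpt v w a) (ε⁻¹ • z) := by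
      funext z
      rw [gpt_scale v ε hε z]
      rfl
    rw [e, pd_cmul, pd_scale ε⁻¹ (fun w => gpt v w a) i x, ← mul_assoc, mul_inv_cancel₀ hε.ne',
      one_mul]
  rw [key a i, key b j, gpt_scale v ε hε x]

theorem t_PT : S_PT := by
  intro m G v ε hε _ x
  rw [graph_scale G v ε hε, Scal_scale, vol_scale]
  ring

end

end Pool.Agent.U884.OM
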